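import Pool.Agent.Q155.Jacket.Proof

/-!
Q1 of MP_522cd8_co: the pair `R = ZMod 5`, `N = Rˣ` has property (F).
-/

set_option autoImplicit false

namespace Pool.Agent.Results.MP_522cd8_co.AllWidths

open Q155.Jacket

/-- `(ZMod 5, (ZMod 5)ˣ)` has property (F): for infinitely many `n`, every admissible width is the
jacket width of a primary jacket matrix of order `2n`. -/
theorem result : PropertyF (⊤ : Subgroup (ZMod 5)ˣ) :=
  propertyF

end Pool.Agent.Results.MP_522cd8_co.AllWidths
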